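import Pool.Agent.Helper98.GX.St3

/-!
# Project GX (MP_140278_ag), module KER: the field of constants of the log derivations is `ℂ`

Proof: a polynomial relation `P(z, f) = 0` of least total degree is killed by all `∂/∂X_j`, so it does
not contain the `X_j`; so `f` is algebraic over `ℂ`.
-/

set_option autoImplicit false

open scoped BigOperators

namespace Pool.Agent.Helper26.GX

open Pool.Agent.Helper98.GX
open Pool.Agent.Helper53.CX (DivVal LinSys IsNefCartier)
open MvPolynomial

/-- The chain rule. -/
private theorem chain {K : Type} [Field K] [Algebra ℂ K] {σ : Type} [Fintype σ]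
    (d : Derivation ℂ K K) (x : σ → K) (P : MvPolynomial σ ℂ) :
    d (aeval x P) = ∑ i, aeval x (pderiv i P) * d (x i) := by
  classical
  induction P using MvPolynomial.induction_on with
  | C a =>
    rw [aeval_C, Derivation.map_algebraMap]
    simp
  | add p q hp hq =>
    rw [map_add, map_add, hp, hq, ← Finset.sum_add_distrib]
    refine Finset.sum_congr rfl fun i _ => ?_
    rw [map_add, map_add, add_mul]
  | mul_X p n hp =>
    rw [map_mul, aeval_X, Derivation.leibniz, hp, smul_eq_mul, smul_eq_mul, Finset.mul_sum]
    have h : ∀ i, aeval x (pderiv i (p * X n)) * d (x i) =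
        x n * (aeval x (pderiv i p) * d (x i)) +
          (if i = n then aeval x p * d (x n) else 0) := by
      intro i
      rw [pderiv_mul, map_add, map_mul, map_mul, aeval_X]
      by_cases hi : i = n
      · subst hi
        rw [pderiv_X_self, map_one, if_pos rfl]
        ring
      · rw [pderiv_X_of_ne (fun h => hi h.symm), map_zero, if_neg hi]
        ring
    rw [Finset.sum_congr rfl fun i _ => h i, Finset.sum_add_distrib, Finset.sum_ite_eq',
      if_pos (Finset.mem_univ n)]
    ring

private theorem deg_lt {σ : Type} (P : MvPolynomial σ ℂ) (i : σ) (h : pderiv i P ≠ 0) :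
    (pderiv i P).totalDegree < P.totalDegree := by
  have key : ∀ m ∈ (pderiv i P).support, (m.sum fun _ e => e) + 1 ≤ P.totalDegree := by
    intro m hm
    rw [mem_support_iff, coeff_pderiv] at hm
    have h1 : m + Finsupp.single i 1 ∈ P.support := by
      rw [mem_support_iff]
      exact left_ne_zero_of_mul hm
    have h2 := le_totalDegree h1
    rw [Finsupp.sum_add_index' (fun _ => rfl) (fun _ _ _ => rfl),
      Finsupp.sum_single_index rfl] at h2
    exact h2
  obtain ⟨m, hm⟩ : (pderiv i P).support.Nonempty := by
    rw [Finset.nonempty_iff_ne_empty]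
    exact fun h0 => h (support_eq_empty.1 h0)
  have h1 : 1 ≤ P.totalDegree := le_trans (Nat.le_add_left 1 _) (key m hm)
  have h2 : (pderiv i P).totalDegree ≤ P.totalDegree - 1 := by
    rw [totalDegree]
    refine Finset.sup_le fun m hm => ?_
    have := key m hm
    omega
  omega

/-- elements algebraic over `ℂ` are constants -/
private theorem const_of_algebraic {K : Type} [Field K] [Algebra ℂ K] (f : K)
    (h : IsAlgebraic ℂ f) : ∃ c : ℂ, f = algebraMap ℂ K c := by
  have h1 : (minpoly ℂ f).degree = 1 :=
    IsAlgClosed.degree_eq_one_of_irreducible ℂ (minpoly.irreducible h.isIntegral)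
  obtain ⟨c, hc⟩ := minpoly.mem_range_of_degree_eq_one ℂ f h1
  exact ⟨c, hc.symm⟩

theorem hKER (_hUNQ : StUNQ) : StKER := by
  classical
  intro K _ _ n L f hf
  apply const_of_algebraic
  by_contra hna
  set x : Option (Fin n) → K := fun o => o.elim f L.z with hx
  -- the coordinates and `f` are algebraically dependent
  have hdep : ¬ AlgebraicIndependent ℂ x := by
    rw [hx, L.basis.1.option_iff_transcendental f]
    have := L.basis.isAlgebraic
    exact fun h => h (Algebra.IsAlgebraic.isAlgebraic f)
  have hex : ∃ N : ℕ, ∃ P : MvPolynomial (Option (Fin n)) ℂ, P ≠ 0 ∧ aeval x P = 0 ∧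
      P.totalDegree = N := by
    rw [algebraicIndependent_iff] at hdep
    push Not at hdep
    obtain ⟨P, hP, hP0⟩ := hdep
    exact ⟨_, P, hP0, hP, rfl⟩
  obtain ⟨P, hP0, hPx, hPN⟩ := Nat.find_spec hex
  have hmin : ∀ Q : MvPolynomial (Option (Fin n)) ℂ, aeval x Q = 0 →
      Q.totalDegree < P.totalDegree → Q = 0 := by
    intro Q hQ hlt
    by_contra hQ0
    rw [hPN] at hlt
    exact Nat.find_min hex hlt ⟨Q, hQ0, hQ, rfl⟩
  -- the derivatives in the coordinates vanish
  have hder : ∀ j : Fin n, pderiv (some j) P = 0 := by
    intro j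
    by_contra hne
    refine hne (hmin _ ?_ (deg_lt P (some j) hne))
    have h1 := chain (L.θ j) x P
    rw [hPx, map_zero, Fintype.sum_option] at h1
    have h2 : x none = f := rfl
    have h3 : ∀ i, x (some i) = L.z i := fun i => rfl
    rw [h2, hf j, mul_zero, zero_add] at h1
    have h4 : ∀ i, aeval x (pderiv (some i) P) * (L.θ j) (x (some i)) =
        if i = j then aeval x (pderiv (some j) P) * L.z j else 0 := by
      intro i
      rw [h3, L.theta_z i j]
      by_cases hij : i = j
      · subst hij
        rw [if_pos rfl, if_pos rfl]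
      · rw [if_neg hij, if_neg hij, mul_zero]
    rw [Finset.sum_congr rfl fun i _ => h4 i, Finset.sum_ite_eq', if_pos (Finset.mem_univ j)]
      at h1
    have hz : L.z j ≠ 0 := L.basis.1.ne_zero j
    exact (mul_eq_zero.1 h1.symm).resolve_right hz
  -- so `P` does not contain the coordinates
  have hsupp : ∀ m ∈ P.support, ∀ j : Fin n, m (some j) = 0 := by
    intro m hm j
    by_contra hmj
    have h1 := coeff_pderiv (i := some j) P (m - Finsupp.single (some j) 1)
    rw [hder j, coeff_zero] at h1
    have h2 : m - Finsupp.single (some j) 1 + Finsupp.single (some j) 1 = m := by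
      refine tsub_add_cancel_of_le ?_
      rw [Finsupp.single_le_iff]
      omega
    rw [h2] at h1
    have h3 : coeff m P ≠ 0 := mem_support_iff.1 hm
    have h4 : (((m - Finsupp.single (some j) 1 : Option (Fin n) →₀ ℕ) (some j) : ℕ) : ℂ) + 1 ≠
        0 := Nat.cast_add_one_ne_zero _
    exact (mul_ne_zero h3 h4) h1.symm
  have hvars : (P.vars : Set (Option (Fin n))) ⊆ Set.range (fun _ : Unit => (none : Option (Fin n))) := by
    intro o ho
    rw [Finset.mem_coe, mem_vars] at ho
    obtain ⟨m, hm, hmo⟩ := ho
    cases o with
    | none => exact ⟨(), rfl⟩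
    | some j => exact absurd (hsupp m hm j) (Finsupp.mem_support_iff.1 hmo)
  obtain ⟨q, hq⟩ := exists_rename_eq_of_vars_subset_range P
    (fun _ : Unit => (none : Option (Fin n))) (fun _ _ _ => rfl) hvars
  have hq0 : q ≠ 0 := by
    rintro rfl
    exact hP0 (by rw [← hq, map_zero])
  have hqf : aeval (fun _ : Unit => f) q = 0 := by
    have h1 := hPx
    rw [← hq, aeval_rename] at h1
    exact h1
  have hind : AlgebraicIndependent ℂ (fun _ : Unit => f) := by
    rw [algebraicIndependent_unique_type_iff]
    exact hna
  rw [algebraicIndependent_iff] at hind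
  exact hq0 (hind q hqf)

end Pool.Agent.Helper26.GX
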